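import Mathlib

/-!
# Certificates for sums of `Ψ(v - e)`, `Ψ(u) = u log |u| - u`

`lnA j` is an integer approximation of `10^12 * log j`; `chk` verifies in integer arithmetic that
`∑ c_s Ψ(v - e_s) ≤ a` on an interval; `tchk` handles the tail.
-/

open Real

namespace Pool.Agent.H312R.PC

/-- `Ψ(u) = u log |u| - u` -/
noncomputable def Psi (u : ℝ) : ℝ := u * Real.log u - u

/-- `∑ (C / Dc) Ψ(v - k / M)` over the list of the pairs `(C, k)` -/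
noncomputable def EF (Dc M : ℕ) (l : List (ℤ × ℤ)) (v : ℝ) : ℝ :=
  (l.map fun s => ((s.1 : ℝ) / Dc) * Psi (v - (s.2 : ℝ) / M)).sum

lemma EF_cons (Dc M : ℕ) (s : ℤ × ℤ) (l : List (ℤ × ℤ)) (v : ℝ) :
    EF Dc M (s :: l) v = ((s.1 : ℝ) / Dc) * Psi (v - (s.2 : ℝ) / M) + EF Dc M l v := by
  simp [EF]

lemma EF_nil (Dc M : ℕ) (v : ℝ) : EF Dc M [] v = 0 := by simp [EF]

lemma EF_append (Dc M : ℕ) (l l' : List (ℤ × ℤ)) (v : ℝ) :
    EF Dc M (l ++ l') v = EF Dc M l v + EF Dc M l' v := by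
  simp [EF]

/-- the negated list -/
def ngl (l : List (ℤ × ℤ)) : List (ℤ × ℤ) := l.map fun s => (-s.1, s.2)

lemma EF_neg (Dc M : ℕ) (l : List (ℤ × ℤ)) (v : ℝ) : EF Dc M (ngl l) v = - EF Dc M l v := by
  induction l with
  | nil => simp [ngl, EF]
  | cons s l ih =>
    have : ngl (s :: l) = (-s.1, s.2) :: ngl l := rfl
    rw [this, EF_cons, EF_cons, ih]
    push_cast
    ring

/-! ### Logarithms -/

/-- integer approximation of `10^12 log j` -/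
def lnA (j : ℕ) : ℤ :=
  let k0 := Nat.log2 j
  let k := if 7 * 2 ^ k0 < 5 * j then k0 + 1 else k0
  let b : ℤ := (j : ℤ) + (2 : ℤ) ^ k
  let a : ℤ := (j : ℤ) - (2 : ℤ) ^ k
  693147180560 * (k : ℤ) + (2000000000000 *
    (315 * a * b ^ 8 + 105 * a ^ 3 * b ^ 6 + 63 * a ^ 5 * b ^ 4 + 45 * a ^ 7 * b ^ 2 + 35 * a ^ 9)) / (315 * b ^ 9)

/-- error bound for `lnA` -/
abbrev lnE : ℤ := 20000

lemma log_ratio_approx (z : ℝ) (hz : |z| ≤ 3 / 17) :
    |Real.log ((1 + z) / (1 - z)) - 2 * (z + z ^ 3 / 3 + z ^ 5 / 5 + z ^ 7 / 7 + z ^ 9 / 9)| ≤ 13 / 10 ^ 9 := by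
  have hz1 : |z| < 1 := lt_of_le_of_lt hz (by norm_num)
  have hzl := abs_le.1 hz
  have h1 := Real.abs_log_sub_add_sum_range_le hz1 10
  have h2 := Real.abs_log_sub_add_sum_range_le (x := -z) (by rwa [abs_neg]) 10
  rw [abs_neg] at h2
  have hp : 0 < 1 - z := by linarith
  have hq : 0 < 1 + z := by linarith
  rw [Real.log_div hq.ne' hp.ne']
  have hb : |z| ^ (10 + 1) / (1 - |z|) ≤ 13 / 10 ^ 9 / 2 := by
    have h3 : |z| ^ (10 + 1) ≤ (3 / 17 : ℝ) ^ 11 := pow_le_pow_left₀ (abs_nonneg z) hz 11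
    have h4 : (14 / 17 : ℝ) ≤ 1 - |z| := by linarith
    calc |z| ^ (10 + 1) / (1 - |z|) ≤ (3 / 17 : ℝ) ^ 11 / (14 / 17) :=
          div_le_div₀ (by positivity) h3 (by norm_num) h4
      _ ≤ 13 / 10 ^ 9 / 2 := by norm_num
  have e2 : (1 - -z) = 1 + z := by ring
  rw [e2] at h2
  simp only [Finset.sum_range_succ, Finset.sum_range_zero] at h1 h2
  rw [abs_le] at h1 h2 ⊢
  constructor
  · norm_num at h1 h2 ⊢
    nlinarith [h1.1, h1.2, h2.1, h2.2]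
  · norm_num at h1 h2 ⊢
    nlinarith [h1.1, h1.2, h2.1, h2.2]

lemma lnA_spec (j : ℕ) (hj : 1 ≤ j) (hj2 : j < 2 ^ 20) :
    |(10 : ℝ) ^ 12 * Real.log j - (lnA j : ℝ)| ≤ (lnE : ℝ) := by
  have hk0a : 2 ^ Nat.log2 j ≤ j := Nat.log2_self_le (by omega)
  have hk0b : j < 2 ^ (Nat.log2 j + 1) := Nat.lt_log2_self
  have hk0c : Nat.log2 j < 20 := (Nat.log2_lt (by omega)).2 hj2
  set k0 := Nat.log2 j with hk0
  set k := if 7 * 2 ^ k0 < 5 * j then k0 + 1 else k0 with hk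
  have hk20 : k ≤ 20 := by rw [hk]; split_ifs <;> omega
  have h1 : 5 * j ≤ 7 * 2 ^ k := by
    rw [hk]; split_ifs with h
    · rw [pow_succ] at hk0b ⊢; omega
    · omega
  have h2 : 7 * 2 ^ k ≤ 10 * j := by
    rw [hk]; split_ifs with h
    · rw [pow_succ]; omega
    · omega
  have hP : (0 : ℝ) < 2 ^ k := by positivity
  have hjR : (1 : ℝ) ≤ (j : ℝ) := by exact_mod_cast hj
  have h1' : 5 * (j : ℝ) ≤ 7 * 2 ^ k := by exact_mod_cast h1
  have h2' : 7 * (2 : ℝ) ^ k ≤ 10 * j := by exact_mod_cast h2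
  set b : ℤ := (j : ℤ) + (2 : ℤ) ^ k with hb
  set a : ℤ := (j : ℤ) - (2 : ℤ) ^ k with ha
  have hbR : (b : ℝ) = (j : ℝ) + 2 ^ k := by rw [hb]; push_cast; ring
  have haR : (a : ℝ) = (j : ℝ) - 2 ^ k := by rw [ha]; push_cast; ring
  have hbpos : (0 : ℝ) < (b : ℝ) := by rw [hbR]; linarith
  set z : ℝ := (a : ℝ) / b with hz
  have hzabs : |z| ≤ 3 / 17 := by
    rw [hz, abs_div, abs_of_pos hbpos, div_le_iff₀ hbpos, haR, hbR, abs_le]
    constructor <;> linarith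
  have hlog := log_ratio_approx z hzabs
  have hratio : (1 + z) / (1 - z) = (j : ℝ) / 2 ^ k := by
    have hb' : (b : ℝ) ≠ 0 := hbpos.ne'
    have h3 : (1 + z) = 2 * j / b := by rw [hz]; field_simp; rw [haR, hbR]; ring
    have h4 : (1 - z) = 2 * 2 ^ k / b := by rw [hz]; field_simp; rw [haR, hbR]; ring
    rw [h3, h4]
    field_simp
  rw [hratio, Real.log_div (by linarith) hP.ne', Real.log_pow] at hlog
  -- the polynomial part
  set N : ℤ := 315 * a * b ^ 8 + 105 * a ^ 3 * b ^ 6 + 63 * a ^ 5 * b ^ 4 + 45 * a ^ 7 * b ^ 2 + 35 * a ^ 9 with hN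
  have hbZ : (0 : ℤ) < b := by exact_mod_cast hbpos
  have hpoly : z + z ^ 3 / 3 + z ^ 5 / 5 + z ^ 7 / 7 + z ^ 9 / 9 = (N : ℝ) / (315 * (b : ℝ) ^ 9) := by
    rw [hz, hN]; push_cast
    have hb' : (b : ℝ) ≠ 0 := hbpos.ne'
    field_simp
    ring
  have hden : (0 : ℤ) < 315 * b ^ 9 := by positivity
  have hfl1 : (((2000000000000 * N) / (315 * b ^ 9) : ℤ) : ℝ) ≤ 2 * 10 ^ 12 * ((N : ℝ) / (315 * (b : ℝ) ^ 9)) := by
    have h5 : ((2000000000000 * N) / (315 * b ^ 9)) * (315 * b ^ 9) ≤ 2000000000000 * N :=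
      Int.ediv_mul_le _ hden.ne'
    have h6 : ((((2000000000000 * N) / (315 * b ^ 9) : ℤ) : ℝ)) * (315 * (b : ℝ) ^ 9) ≤ 2000000000000 * (N : ℝ) := by
      exact_mod_cast h5
    have hd : (0 : ℝ) < 315 * (b : ℝ) ^ 9 := by positivity
    rw [← mul_div_assoc, le_div_iff₀ hd]
    norm_num at h6 ⊢
    linarith
  have hfl2 : 2 * 10 ^ 12 * ((N : ℝ) / (315 * (b : ℝ) ^ 9)) ≤ (((2000000000000 * N) / (315 * b ^ 9) : ℤ) : ℝ) + 1 := by
    have h5 : 2000000000000 * N < ((2000000000000 * N) / (315 * b ^ 9) + 1) * (315 * b ^ 9) :=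
      Int.lt_ediv_add_one_mul_self _ hden
    have h6 : 2000000000000 * (N : ℝ) < ((((2000000000000 * N) / (315 * b ^ 9) : ℤ) : ℝ) + 1) * (315 * (b : ℝ) ^ 9) := by
      exact_mod_cast h5
    have hd : (0 : ℝ) < 315 * (b : ℝ) ^ 9 := by positivity
    rw [← mul_div_assoc, div_le_iff₀ hd]
    norm_num at h6 ⊢
    linarith
  have hlnA : (lnA j : ℝ) = 693147180560 * (k : ℝ) + (((2000000000000 * N) / (315 * b ^ 9) : ℤ) : ℝ) := by
    unfold lnA
    rw [← hk0]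
    simp only [← hk, ← hb, ← ha, ← hN]
    push_cast
    ring
  rw [hlnA]
  rw [hpoly] at hlog
  rw [abs_le] at hlog ⊢
  have l1 := Real.log_two_gt_d9
  have l2 := Real.log_two_lt_d9
  have hkR : (k : ℝ) ≤ 20 := by exact_mod_cast hk20
  have hk0R : (0 : ℝ) ≤ (k : ℝ) := by positivity
  have m1 : (k : ℝ) * (10 ^ 12 * Real.log 2 - 693147180560) ≤ 20 * 260 := by
    have : 10 ^ 12 * Real.log 2 - 693147180560 ≤ 260 := by linarith
    nlinarith
  have m2 : -(20 * 260 : ℝ) ≤ (k : ℝ) * (10 ^ 12 * Real.log 2 - 693147180560) := by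
    have : -260 ≤ 10 ^ 12 * Real.log 2 - 693147180560 := by linarith
    nlinarith
  simp only [lnE]
  push_cast
  constructor
  · nlinarith [hlog.1, hlog.2, hfl1, hfl2, m1, m2]
  · nlinarith [hlog.1, hlog.2, hfl1, hfl2, m1, m2]

end Pool.Agent.H312R.PC
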