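import Pool.Agent.H312R.PC.PsiCert2

/-!
# The tail certificate
-/

open Real

namespace Pool.Agent.H312R.PC

/-- derivative of `EF` -/
noncomputable def DF (Dc M : ℕ) (l : List (ℤ × ℤ)) (v : ℝ) : ℝ :=
  (l.map fun s => ((s.1 : ℝ) / Dc) * Real.log (v - (s.2 : ℝ) / M)).sum

lemma hasDerivAt_Psi {u : ℝ} (hu : u ≠ 0) : HasDerivAt Psi (Real.log u) u := by
  have h := (Real.hasDerivAt_mul_log hu).sub (hasDerivAt_id u)
  have e : Real.log u + 1 - 1 = Real.log u := by ring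
  rw [e] at h
  exact h

lemma hasDerivAt_EF {Dc M : ℕ} (l : List (ℤ × ℤ)) (v : ℝ) (h : ∀ s ∈ l, v ≠ (s.2 : ℝ) / M) :
    HasDerivAt (EF Dc M l) (DF Dc M l v) v := by
  induction l with
  | nil =>
    have : EF Dc M [] = fun _ => (0 : ℝ) := by funext w; simp [EF]
    rw [this]
    simpa [DF] using hasDerivAt_const v (0 : ℝ)
  | cons s l ih =>
    have ih' := ih (fun t ht => h t (List.mem_cons_of_mem _ ht))
    have h0 : v - (s.2 : ℝ) / M ≠ 0 := sub_ne_zero.2 (h s List.mem_cons_self)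
    have h1 : HasDerivAt (fun w : ℝ => Psi (w - (s.2 : ℝ) / M)) (Real.log (v - (s.2 : ℝ) / M)) v := by
      have h9 : HasDerivAt (fun w : ℝ => w - (s.2 : ℝ) / M) 1 v := (hasDerivAt_id v).sub_const _
      have := HasDerivAt.comp v (hasDerivAt_Psi h0) h9
      rw [mul_one] at this
      exact this
    have h2 := (h1.const_mul ((s.1 : ℝ) / Dc)).add ih'
    have e : EF Dc M (s :: l) = fun w => ((s.1 : ℝ) / Dc) * Psi (w - (s.2 : ℝ) / M) + EF Dc M l w := by
      funext w; exact EF_cons _ _ _ _ _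
    rw [e]
    have e3 : DF Dc M (s :: l) v = (s.1 : ℝ) / Dc * Real.log (v - (s.2 : ℝ) / M) + DF Dc M l v := by
      simp [DF]
    rw [e3]
    exact h2

/-- `∑ C` -/
def sC (l : List (ℤ × ℤ)) : ℤ := (l.map fun s => s.1).sum

/-- `∑ |C| |k|` -/
def wE (l : List (ℤ × ℤ)) : ℤ := (l.map fun s => |s.1| * |s.2|).sum

lemma log_sub_bound {v e B : ℝ} (hB : |e| ≤ B) (hv : B < v) :
    |Real.log (v - e) - Real.log v| ≤ |e| / (v - B) := by
  have he := abs_le.1 hB
  have hB0 : 0 ≤ B := le_trans (abs_nonneg e) hB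
  have hv0 : 0 < v := lt_of_le_of_lt hB0 hv
  have h1 : 0 < v - e := by linarith
  have hvB : 0 < v - B := by linarith
  rw [abs_le]
  constructor
  · have h2 : Real.log (v / (v - e)) ≤ v / (v - e) - 1 := Real.log_le_sub_one_of_pos (by positivity)
    rw [Real.log_div hv0.ne' h1.ne'] at h2
    have h3 : v / (v - e) - 1 = e / (v - e) := by field_simp; ring
    have h4 : e / (v - e) ≤ |e| / (v - B) :=
      div_le_div₀ (abs_nonneg e) (le_abs_self e) hvB (by linarith)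
    linarith
  · have h2 : Real.log ((v - e) / v) ≤ (v - e) / v - 1 := Real.log_le_sub_one_of_pos (by positivity)
    rw [Real.log_div h1.ne' hv0.ne'] at h2
    have h3 : (v - e) / v - 1 = -e / v := by field_simp; ring
    have h4 : -e / v ≤ |e| / (v - B) :=
      div_le_div₀ (abs_nonneg e) (neg_le_abs e) hvB (by linarith)
    linarith

lemma DF_le {Dc M : ℕ} (hD : 0 < Dc) (hM : 0 < M) (l : List (ℤ × ℤ)) (Bk : ℤ) (hB : ∀ s ∈ l, |s.2| ≤ Bk)
    (v : ℝ) (hv : (Bk : ℝ) / M < v) :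
    Dc * DF Dc M l v ≤ (sC l : ℝ) * Real.log v + ((wE l : ℤ) : ℝ) / M / (v - (Bk : ℝ) / M) := by
  have hD' : (0 : ℝ) < Dc := by exact_mod_cast hD
  have hM' : (0 : ℝ) < M := by exact_mod_cast hM
  induction l with
  | nil => simp [DF, sC, wE]
  | cons s l ih =>
    have ih' := ih (fun t ht => hB t (List.mem_cons_of_mem _ ht))
    have h0 : |s.2| ≤ Bk := hB s List.mem_cons_self
    have h0' : |(s.2 : ℝ) / M| ≤ (Bk : ℝ) / M := by
      rw [abs_div, abs_of_pos hM']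
      apply div_le_div_of_nonneg_right _ hM'.le
      exact_mod_cast h0
    have h1 := log_sub_bound h0' hv
    have hvB : 0 < v - (Bk : ℝ) / M := by linarith
    simp only [DF, sC, wE, List.map_cons, List.sum_cons] at ih' ⊢
    push_cast at ih' ⊢
    have h2 : (s.1 : ℝ) * (Real.log (v - (s.2 : ℝ) / M) - Real.log v) ≤
        |(s.1 : ℝ)| * (|(s.2 : ℝ) / M| / (v - (Bk : ℝ) / M)) := by
      calc (s.1 : ℝ) * (Real.log (v - (s.2 : ℝ) / M) - Real.log v)
          ≤ |(s.1 : ℝ) * (Real.log (v - (s.2 : ℝ) / M) - Real.log v)| := le_abs_self _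
        _ = |(s.1 : ℝ)| * |Real.log (v - (s.2 : ℝ) / M) - Real.log v| := abs_mul _ _
        _ ≤ _ := mul_le_mul_of_nonneg_left h1 (abs_nonneg _)
    have h3 : |(s.1 : ℝ)| * (|(s.2 : ℝ) / M| / (v - (Bk : ℝ) / M)) =
        |(s.1 : ℝ)| * |(s.2 : ℝ)| / M / (v - (Bk : ℝ) / M) := by
      rw [abs_div, abs_of_pos hM']; ring
    have h4 : (Dc : ℝ) * ((s.1 : ℝ) / Dc * Real.log (v - (s.2 : ℝ) / M) +
        (l.map fun s => ((s.1 : ℝ) / Dc) * Real.log (v - (s.2 : ℝ) / M)).sum) =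
        (s.1 : ℝ) * Real.log (v - (s.2 : ℝ) / M) +
        Dc * (l.map fun s => ((s.1 : ℝ) / Dc) * Real.log (v - (s.2 : ℝ) / M)).sum := by
      field_simp
    rw [h4]
    have h5 : (|(s.1 : ℝ)| * |(s.2 : ℝ)| + ((l.map fun s => |s.1| * |s.2|).sum : ℤ)) / M / (v - (Bk : ℝ) / M) =
        |(s.1 : ℝ)| * |(s.2 : ℝ)| / M / (v - (Bk : ℝ) / M) +
        ((l.map fun s => |s.1| * |s.2|).sum : ℤ) / M / (v - (Bk : ℝ) / M) := by ring
    push_cast at h5
    rw [h5]
    nlinarith [ih', h2, h3]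

/-- the tail check -/
def tchk (M : ℕ) (l : List (ℤ × ℤ)) (X : ℕ) (Bk kap : ℤ) : Bool :=
  (l.all fun s => decide (|s.2| ≤ Bk)) && decide (Bk < (X : ℤ)) && decide (0 ≤ Bk) && decide (0 ≤ kap) &&
  decide (sC l ≤ 0) && decide (1 ≤ M) && decide (M < 1048576) && decide (X < 1048576) &&
  decide (1000000000000 * (wE l * X + kap * M * ((X : ℤ) - Bk)) ≤
    (-(sC l)) * (lnA X - lnA M - 40000) * ((X : ℤ) - Bk) * X)

/-- **the tail certificate** -/
theorem EF_tail {Dc M : ℕ} (hD : 0 < Dc) {l : List (ℤ × ℤ)} {X : ℕ} {Bk kap : ℤ}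
    (h : tchk M l X Bk kap = true) (v : ℝ) (hv : (X : ℝ) / M ≤ v) :
    EF Dc M l v ≤ EF Dc M l ((X : ℝ) / M) - (kap : ℝ) / Dc * (Real.log v - Real.log ((X : ℝ) / M)) := by
  unfold tchk at h
  simp only [Bool.and_eq_true, decide_eq_true_eq, List.all_eq_true] at h
  obtain ⟨⟨⟨⟨⟨⟨⟨⟨hB, hBX⟩, hB0⟩, hk0⟩, hs0⟩, hM1⟩, hM2⟩, hX2⟩, hmain⟩ := h
  have hD' : (0 : ℝ) < Dc := by exact_mod_cast hD
  have hM' : (0 : ℝ) < M := by exact_mod_cast (by omega : 0 < M)
  have hX1 : 1 ≤ X := by omega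
  have hXR : (0 : ℝ) < X := by exact_mod_cast hX1
  have hBXR : (Bk : ℝ) < X := by exact_mod_cast hBX
  have hB0R : (0 : ℝ) ≤ Bk := by exact_mod_cast hB0
  have hk0R : (0 : ℝ) ≤ kap := by exact_mod_cast hk0
  have hs0R : (sC l : ℝ) ≤ 0 := by exact_mod_cast hs0
  set V : ℝ := (X : ℝ) / M with hV
  have hVpos : 0 < V := by positivity
  have hBV : (Bk : ℝ) / M < V := by rw [hV]; exact div_lt_div_of_pos_right hBXR hM'
  have hBM0 : 0 ≤ (Bk : ℝ) / M := by positivity
  -- log V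
  have hlX := lnA_spec X hX1 (by norm_num; omega)
  have hlM := lnA_spec M hM1 (by norm_num; omega)
  have hlogV : ((lnA X - lnA M - 40000 : ℤ) : ℝ) ≤ 10 ^ 12 * Real.log V := by
    rw [hV, Real.log_div hXR.ne' hM'.ne']
    rw [abs_le] at hlX hlM
    simp only [lnE] at hlX hlM
    push_cast at hlX hlM ⊢
    linarith [hlX.1, hlM.2]
  have hmainR : (1000000000000 : ℝ) * ((wE l : ℝ) * X + kap * M * ((X : ℝ) - Bk)) ≤
      (-(sC l : ℝ)) * ((lnA X - lnA M - 40000 : ℤ) : ℝ) * ((X : ℝ) - Bk) * X := by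
    exact_mod_cast hmain
  have hXB : 0 < (X : ℝ) - Bk := by linarith
  have hcond : ((wE l : ℤ) : ℝ) / M / (V - (Bk : ℝ) / M) + kap / V ≤ -(sC l : ℝ) * Real.log V := by
    have e1 : ((wE l : ℤ) : ℝ) / M / (V - (Bk : ℝ) / M) = (wE l : ℝ) / ((X : ℝ) - Bk) := by
      rw [hV]
      have : (X : ℝ) / M - (Bk : ℝ) / M = ((X : ℝ) - Bk) / M := by ring
      rw [this]
      field_simp
    have e2 : (kap : ℝ) / V = kap * M / X := by rw [hV]; field_simp
    rw [e1, e2]
    have h1 : (-(sC l : ℝ)) * ((lnA X - lnA M - 40000 : ℤ) : ℝ) * (((X : ℝ) - Bk) * X) ≤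
        (-(sC l : ℝ)) * (10 ^ 12 * Real.log V) * (((X : ℝ) - Bk) * X) := by
      apply mul_le_mul_of_nonneg_right _ (by positivity)
      exact mul_le_mul_of_nonneg_left hlogV (by linarith)
    have h2 : (wE l : ℝ) * X + kap * M * ((X : ℝ) - Bk) ≤ (-(sC l : ℝ)) * Real.log V * (((X : ℝ) - Bk) * X) := by
      nlinarith [hmainR, h1]
    have h3 : (wE l : ℝ) / ((X : ℝ) - Bk) + kap * M / X =
        ((wE l : ℝ) * X + kap * M * ((X : ℝ) - Bk)) / (((X : ℝ) - Bk) * X) := by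
      field_simp
    rw [h3, div_le_iff₀ (by positivity)]
    linarith
  -- monotonicity
  set κ : ℝ := (kap : ℝ) / Dc with hκ
  have hκ0 : 0 ≤ κ := by positivity
  have hne : ∀ w : ℝ, V ≤ w → ∀ s ∈ l, w ≠ (s.2 : ℝ) / M := by
    intro w hw s hs hc
    have h1 : (s.2 : ℝ) / M ≤ (Bk : ℝ) / M := by
      apply div_le_div_of_nonneg_right _ hM'.le
      exact_mod_cast (le_trans (le_abs_self _) (hB s hs))
    linarith
  have hder : ∀ w : ℝ, V ≤ w → HasDerivAt (fun w => EF Dc M l w + κ * Real.log w) (DF Dc M l w + κ * w⁻¹) w := by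
    intro w hw
    have hw0 : w ≠ 0 := by linarith
    exact (hasDerivAt_EF l w (hne w hw)).add ((Real.hasDerivAt_log hw0).const_mul κ)
  have hnonpos : ∀ w : ℝ, V ≤ w → DF Dc M l w + κ * w⁻¹ ≤ 0 := by
    intro w hw
    have hw0 : 0 < w := by linarith
    have h1 := DF_le hD (by omega : 0 < M) l Bk hB w (by linarith)
    have h2 : (sC l : ℝ) * Real.log w ≤ (sC l : ℝ) * Real.log V := by
      have : Real.log V ≤ Real.log w := Real.log_le_log hVpos hw
      nlinarith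
    have hwE : (0 : ℝ) ≤ (wE l : ℝ) := by
      have : 0 ≤ wE l := by
        unfold wE
        apply List.sum_nonneg
        intro x hx
        rw [List.mem_map] at hx
        obtain ⟨s, _, rfl⟩ := hx
        positivity
      exact_mod_cast this
    have h3 : ((wE l : ℤ) : ℝ) / M / (w - (Bk : ℝ) / M) ≤ ((wE l : ℤ) : ℝ) / M / (V - (Bk : ℝ) / M) := by
      apply div_le_div_of_nonneg_left (by positivity) (by linarith) (by linarith)
    have h4 : (kap : ℝ) * w⁻¹ ≤ kap / V := by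
      rw [← div_eq_mul_inv]
      exact div_le_div_of_nonneg_left hk0R hVpos hw
    have h5 : Dc * (DF Dc M l w + κ * w⁻¹) ≤ 0 := by
      have e : Dc * (DF Dc M l w + κ * w⁻¹) = Dc * DF Dc M l w + kap * w⁻¹ := by
        rw [hκ]; field_simp
      rw [e]
      linarith
    nlinarith
  have hanti : AntitoneOn (fun w => EF Dc M l w + κ * Real.log w) (Set.Ici V) := by
    apply antitoneOn_of_deriv_nonpos (convex_Ici V)
    · intro w hw
      exact (hder w hw).continuousAt.continuousWithinAt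
    · intro w hw
      rw [interior_Ici] at hw
      exact (hder w hw.le).differentiableAt.differentiableWithinAt
    · intro w hw
      rw [interior_Ici] at hw
      rw [(hder w hw.le).deriv]
      exact hnonpos w hw.le
  have := hanti (Set.mem_Ici.2 le_rfl) (Set.mem_Ici.2 hv) hv
  simp only at this
  linarith

end Pool.Agent.H312R.PC
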